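import Mathlib
import Pool.Agent.V11282.LZ.CaseA
import Pool.Agent.V11282.LZ.CaseB
import Pool.Agent.V11282.LZ.CaseC

/-!
# Critical Lorentz sharpness for Fourier decay of Riesz potentials of measures

For `0 < β ≤ d`, `0 < α < d` with `(d - β)/2 < α < d - β/2` and `1 ≤ q < ∞` there are measures
bounded in `M_b` and in the Besov norm `Ḃ^{β-d}_{∞,∞}` for which the `L^{p,q}` quasi-norm of the
Fourier transform of the Riesz potential blows up, `p = 2d/(2α+β)`, exactly when `β < d` or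
`q < 2`.  In the remaining case `β = d`, `q ≥ 2` there is a uniform bound.

For `β < d` we take the product of `d` copies of a one-dimensional measure of dimension `β/d`
uniform on a union of intervals, built by successive random refinement so that its Fourier
transform is of size `R^{-b/2}` on a proportion of `[0, R]` for `N` separated scales `R`.
For `β = d`, `q < 2` we take a function of modulus at most `1` on the unit cube, equal on the `N`
slabs to random sums of Haar functions at `N` separated scales.  The upper bound for `β = d`,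
`q ≥ 2` is Plancherel's theorem and a product estimate for rearrangements.
-/

set_option autoImplicit false

open MeasureTheory Set Filter Topology
open scoped ENNReal NNReal

namespace Pool.Agent.Results.MP_8f79a4_an.LorentzSharp

noncomputable section

/-- Euclidean norm on `ℝ^d` -/
def en {d : ℕ} (x : Fin d → ℝ) : ℝ := Real.sqrt (∑ i, x i ^ 2)

/-- dot product on `ℝ^d` -/
def dp {d : ℕ} (x y : Fin d → ℝ) : ℝ := ∑ i, x i * y i

/-- the heat kernel `p_t(x) = (4πt)^{-d/2} e^{-|x|²/(4t)}` -/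
def hk {d : ℕ} (t : ℝ) (x : Fin d → ℝ) : ℝ :=
  (4 * Real.pi * t) ^ (-(d : ℝ) / 2) * Real.exp (-(en x) ^ 2 / (4 * t))

/-- integral of a complex function against a finite signed measure -/
def sI {d : ℕ} (s : SignedMeasure (Fin d → ℝ)) (F : (Fin d → ℝ) → ℂ) : ℂ :=
  ∫ x, F x ∂s.toJordanDecomposition.posPart - ∫ x, F x ∂s.toJordanDecomposition.negPart

/-- Fourier transform of a finite signed measure -/
def ft {d : ℕ} (s : SignedMeasure (Fin d → ℝ)) (ξ : Fin d → ℝ) : ℂ :=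
  sI s (fun x => Complex.exp ((-(2 * Real.pi * dp x ξ) : ℝ) * Complex.I))

/-- total variation norm -/
def tv {d : ℕ} (s : SignedMeasure (Fin d → ℝ)) : ℝ≥0∞ := s.totalVariation univ

/-- the homogeneous Besov norm: `sup_{t>0} t^{(d-β)/2} ‖p_t * s‖_∞` -/
def besov {d : ℕ} (β : ℝ) (s : SignedMeasure (Fin d → ℝ)) : ℝ≥0∞ :=
  ⨆ (t : ℝ) (_ : 0 < t) (x : Fin d → ℝ),
    ENNReal.ofReal (t ^ (((d : ℝ) - β) / 2) * ‖sI s (fun y => (hk t (x - y) : ℂ))‖)

/-- the Fourier transform `(2π|ξ|)^{-α} ŝ(ξ)` of the Riesz potential -/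
def riesz {d : ℕ} (α : ℝ) (s : SignedMeasure (Fin d → ℝ)) (ξ : Fin d → ℝ) : ℂ :=
  (((2 * Real.pi * en ξ) ^ (-α) : ℝ) : ℂ) * ft s ξ

/-- decreasing rearrangement -/
def rearr {d : ℕ} (g : (Fin d → ℝ) → ℂ) (r : ℝ) : ℝ≥0∞ :=
  sInf {t : ℝ≥0∞ | volume {x | t < ‖g x‖ₑ} ≤ ENNReal.ofReal r}

/-- the Lorentz quasi-norm `‖g‖_{L^{p,q}}`, `q < ∞` -/
def lor {d : ℕ} (p q : ℝ) (g : (Fin d → ℝ) → ℂ) : ℝ≥0∞ :=
  (∫⁻ r in Ioi (0:ℝ), (ENNReal.ofReal (r ^ (1 / p)) * rearr g r) ^ q / ENNReal.ofReal r) ^ (1 / q)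

/-- there is a sequence, bounded in both norms, with Lorentz quasi-norms tending to infinity -/
def Blowup (d : ℕ) (α β q : ℝ) : Prop :=
  ∃ Φ : ℕ → SignedMeasure (Fin d → ℝ), (∃ C : ℝ≥0, ∀ N, tv (Φ N) + besov β (Φ N) ≤ C) ∧
    Tendsto (fun N => lor (2 * d / (2 * α + β)) q (riesz α (Φ N))) atTop (𝓝 ⊤)

lemma bound_d (d : ℕ) (hd : 1 ≤ d) (α q C : ℝ) (hα : 0 < α) (hq : 2 ≤ q) (hC : 0 < C) :
    ∃ K : ℝ≥0, ∀ s : SignedMeasure (Fin d → ℝ), tv s + besov d s ≤ ENNReal.ofReal C →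
      lor (2 * d / (2 * α + d)) q (riesz α s) ≤ K := by
  obtain ⟨K, hK, h⟩ := Pool.Agent.V11282.LZ.caseC hd α q C hα hq hC
  refine ⟨K.toNNReal, fun s hs => ?_⟩
  rw [ENNReal.coe_toNNReal hK.ne]
  exact h s hs

/-- **Main theorem.** The blow-up occurs exactly when `β < d` or `q < 2`; for `β = d` and `q ≥ 2`
there is a uniform bound. -/
theorem result (d : ℕ) (hd : 1 ≤ d) (β : ℝ) (hβ0 : 0 < β) (hβd : β ≤ d) (α : ℝ) (hα0 : 0 < α)
    (hαd : α < d) (h1 : ((d : ℝ) - β) / 2 < α) (h2 : α < d - β / 2) (q : ℝ) (hq : 1 ≤ q) :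
    (Blowup d α β q ↔ (β < d ∨ q < 2)) ∧
    (β = d → 2 ≤ q → ∃ K : ℝ≥0, ∀ s : SignedMeasure (Fin d → ℝ), tv s ≤ 1 → besov β s ≤ 1 →
      lor (2 * d / (2 * α + β)) q (riesz α s) ≤ K) := by
  refine ⟨⟨?_, ?_⟩, ?_⟩
  · rintro ⟨Φ, ⟨C, hC⟩, hlim⟩
    by_contra hcon
    push Not at hcon
    obtain ⟨h3, h4⟩ := hcon
    obtain rfl : β = d := le_antisymm hβd h3
    obtain ⟨K, hK⟩ := bound_d d hd α q (C + 1) hα0 h4 (by positivity)
    have h5 : ∀ N, lor (2 * d / (2 * α + d)) q (riesz α (Φ N)) ≤ K := by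
      intro N
      apply hK
      refine (hC N).trans ?_
      rw [← ENNReal.ofReal_coe_nnreal]
      exact ENNReal.ofReal_le_ofReal (by linarith)
    have h6 := le_of_tendsto' hlim h5
    exact absurd h6 (by simp)
  · rintro h
    rcases lt_or_ge β d with h3 | h3
    · obtain ⟨Φ, h4, h5⟩ := Pool.Agent.V11282.LZ.caseA hd α β q hα0 hβ0 h3 hq
      exact ⟨Φ, ⟨(1 + 72 ^ d : ℝ).toNNReal, h4⟩, h5⟩
    · obtain rfl : β = d := le_antisymm hβd h3
      have h4 : q < 2 := by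
        rcases h with h | h
        · exact absurd h (lt_irrefl _)
        · exact h
      obtain ⟨m, rfl⟩ : ∃ m, d = m + 1 := ⟨d - 1, by omega⟩
      obtain ⟨Φ, h5, h6⟩ := Pool.Agent.V11282.LZ.caseB m α q hα0 hq h4
      exact ⟨Φ, ⟨(2 : ℝ).toNNReal, h5⟩, h6⟩
  · rintro rfl h3
    obtain ⟨K, hK⟩ := bound_d d hd α q 2 hα0 h3 (by norm_num)
    refine ⟨K, fun s hs1 hs2 => hK s ?_⟩
    calc tv s + besov d s ≤ 1 + 1 := add_le_add hs1 hs2
      _ = ENNReal.ofReal 2 := by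
        rw [← ENNReal.ofReal_one, ← ENNReal.ofReal_add (by norm_num) (by norm_num)]
        norm_num

end

end Pool.Agent.Results.MP_8f79a4_an.LorentzSharp
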